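import Mathlib
import Pool.Agent.helper16.PU.Spec2

/-!
# Project PU (MP_2e0e07_nt), row RSC: the residue field of a finite extension of `ℚ_[p]`
-/

set_option autoImplicit false

namespace Pool.Agent.PU

open Matrix Polynomial Pool.Agent.GO Pool.Agent.AR Pool.Agent.RG Pool.Agent.HZ Pool.Agent.DS
  Pool.Agent.AX Pool.Agent.UM NumberField

lemma RSC_ultra (p : ℕ) [Fact p.Prime] (F : Type) [NormedField F] [NormedAlgebra ℚ_[p] F] :
    IsUltrametricDist F := by
  refine IsUltrametricDist.isUltrametricDist_of_forall_norm_natCast_le_one fun n => ?_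
  have h : ((n : ℕ) : F) = algebraMap ℚ_[p] F (n : ℚ_[p]) := by rw [map_natCast]
  rw [h, norm_algebraMap']
  have h2 := Padic.norm_int_le_one (p := p) (n : ℤ)
  rw [Int.cast_natCast] at h2
  exact h2

lemma RSC_zero {F κ : Type} [NormedField F] [Field κ] {red : F → κ} (h : IsRed red) : red 0 = 0 :=
  (h.zero_iff 0 (by rw [norm_zero]; exact zero_le_one)).2 (by rw [norm_zero]; exact zero_lt_one)

lemma RSC_sum {F κ : Type} [NormedField F] [IsUltrametricDist F] [Field κ] {red : F → κ}
    (h : IsRed red) {ι : Type} (s : Finset ι) (f : ι → F) (hf : ∀ i, ‖f i‖ ≤ 1) :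
    ‖∑ i ∈ s, f i‖ ≤ 1 ∧ red (∑ i ∈ s, f i) = ∑ i ∈ s, red (f i) := by
  classical
  induction s using Finset.induction_on with
  | empty => exact ⟨by rw [Finset.sum_empty, norm_zero]; exact zero_le_one, by
      rw [Finset.sum_empty, Finset.sum_empty]; exact RSC_zero h⟩
  | insert a s ha ih =>
    rw [Finset.sum_insert ha, Finset.sum_insert ha]
    refine ⟨(IsUltrametricDist.norm_add_le_max _ _).trans (max_le (hf a) ih.1), ?_⟩
    rw [h.add _ _ (hf a) ih.1, ih.2]

/-- the reduction of the `p`-adic integers -/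
lemma RSC_repr {p : ℕ} [Fact p.Prime] {F κ : Type} [NormedField F] [NormedAlgebra ℚ_[p] F]
    [Field κ] [CharP κ p] {red : F → κ} (h : IsRed red) (e : ℤ_[p]) :
    ∃ n : ℕ, red (algebraMap ℚ_[p] F (e : ℚ_[p])) = (n : κ) := by
  have hn : ∀ e : ℤ_[p], ‖algebraMap ℚ_[p] F (e : ℚ_[p])‖ ≤ 1 := by
    intro e
    rw [norm_algebraMap']
    exact PadicInt.norm_le_one e
  let g : ℤ_[p] →+* κ :=
    { toFun := fun e => red (algebraMap ℚ_[p] F (e : ℚ_[p]))
      map_one' := by
        rw [PadicInt.coe_one, map_one]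
        exact h.one
      map_zero' := by
        rw [PadicInt.coe_zero, map_zero]
        exact RSC_zero h
      map_mul' := fun x y => by
        rw [PadicInt.coe_mul, map_mul]
        exact h.mul _ _ (hn x) (hn y)
      map_add' := fun x y => by
        rw [PadicInt.coe_add, map_add]
        exact h.add _ _ (hn x) (hn y) }
  obtain ⟨n, -, hmem⟩ := (PadicInt.existsUnique_mem_range e).exists
  refine ⟨n, ?_⟩
  rw [PadicInt.maximalIdeal_eq_span_p, Ideal.mem_span_singleton] at hmem
  obtain ⟨c, hc⟩ := hmem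
  have he : e = (n : ℤ_[p]) + (p : ℤ_[p]) * c := by
    rw [← hc]
    ring
  show g e = (n : κ)
  rw [he, map_add, map_mul, map_natCast, map_natCast, CharP.cast_eq_zero κ p, zero_mul, add_zero]

theorem RSC : RSC_stmt := by
  classical
  intro p d _ F κ _ _ _ _ _ red hred hd
  have hult : IsUltrametricDist F := RSC_ultra p F
  let _ : Algebra (ZMod p) κ := ZMod.algebra κ p
  set κ₀ : Set κ := red '' {x | ‖x‖ ≤ 1} with hκ₀
  -- lifts
  have hlift : ∀ y : κ, ∃ x : F, y ∈ κ₀ → ‖x‖ ≤ 1 ∧ red x = y := by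
    intro y
    by_cases hy : y ∈ κ₀
    · obtain ⟨x, hx, hxy⟩ := hy
      exact ⟨x, fun _ => ⟨hx, hxy⟩⟩
    · exact ⟨0, fun h => absurd h hy⟩
  choose lf hlf using hlift
  -- independent families
  have hind : ∀ s : Finset κ, (s : Set κ) ⊆ κ₀ → LinearIndependent (ZMod p) (fun y : s => (y : κ)) →
      s.card ≤ d := by
    intro s hs hli
    have hli' : LinearIndependent ℚ_[p] (fun y : s => lf (y : κ)) := by
      rw [Fintype.linearIndependent_iff]
      intro c hc i
      by_contra hi
      obtain ⟨j, -, hj⟩ := Finset.exists_max_image (Finset.univ : Finset s) (fun i => ‖c i‖)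
        ⟨i, Finset.mem_univ _⟩
      have hcj : c j ≠ 0 := by
        intro h0
        have h1 := hj i (Finset.mem_univ _)
        rw [h0, norm_zero] at h1
        exact hi (norm_le_zero_iff.1 h1)
      have he1 : ∀ k : s, ‖c k / c j‖ ≤ 1 := by
        intro k
        rw [norm_div]
        exact div_le_one_of_le₀ (hj k (Finset.mem_univ _)) (norm_nonneg _)
      set e : s → ℤ_[p] := fun k => ⟨c k / c j, he1 k⟩ with he
      have hej : algebraMap ℚ_[p] F ((e j : ℤ_[p]) : ℚ_[p]) = 1 := by
        show algebraMap ℚ_[p] F (c j / c j) = 1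
        rw [div_self hcj, map_one]
      have hsum : ∑ k : s, algebraMap ℚ_[p] F ((e k : ℤ_[p]) : ℚ_[p]) * lf (k : κ) = 0 := by
        have h1 : ∑ k : s, algebraMap ℚ_[p] F ((e k : ℤ_[p]) : ℚ_[p]) * lf (k : κ) =
            (c j)⁻¹ • ∑ k : s, c k • lf (k : κ) := by
          rw [Finset.smul_sum]
          refine Finset.sum_congr rfl fun k _ => ?_
          show algebraMap ℚ_[p] F (c k / c j) * lf (k : κ) = _
          rw [smul_smul, Algebra.smul_def]
          congr 2
          rw [div_eq_mul_inv, mul_comm]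
        rw [h1, hc, smul_zero]
      have hne : ∀ k : s, ‖algebraMap ℚ_[p] F ((e k : ℤ_[p]) : ℚ_[p])‖ ≤ 1 := by
        intro k
        rw [norm_algebraMap']
        exact PadicInt.norm_le_one _
      have hlk : ∀ k : s, ‖lf (k : κ)‖ ≤ 1 ∧ red (lf (k : κ)) = k := fun k => hlf k (hs k.2)
      have hterm : ∀ k : s, ‖algebraMap ℚ_[p] F ((e k : ℤ_[p]) : ℚ_[p]) * lf (k : κ)‖ ≤ 1 := by
        intro k
        rw [norm_mul]
        exact mul_le_one₀ (hne k) (norm_nonneg _) (hlk k).1
      have hred2 := (RSC_sum hred Finset.univ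
        (fun k : s => algebraMap ℚ_[p] F ((e k : ℤ_[p]) : ℚ_[p]) * lf (k : κ)) hterm).2
      rw [hsum, RSC_zero hred] at hred2
      choose n hn using fun k : s => RSC_repr hred (e k)
      have hrel : ∑ k : s, ((n k : ℕ) : ZMod p) • (k : κ) = 0 := by
        rw [hred2]
        refine Finset.sum_congr rfl fun k _ => ?_
        rw [hred.mul _ _ (hne k) (hlk k).1, (hlk k).2, hn k, Algebra.smul_def, map_natCast]
      have h0 := Fintype.linearIndependent_iff.1 hli (fun k => ((n k : ℕ) : ZMod p)) hrel j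
      have h1 : (n j : κ) = 1 := by
        rw [← hn j, hej]
        exact hred.one
      have h2 : (p : ℕ) ∣ n j := (ZMod.natCast_eq_zero_iff _ _).1 h0
      have h3 : (n j : κ) = 0 := (CharP.cast_eq_zero_iff κ p (n j)).2 h2
      rw [h3] at h1
      exact zero_ne_one h1
    have h1 := hli'.fintype_card_le_finrank
    rw [Fintype.card_coe] at h1
    exact h1.trans hd
  -- a maximal independent subset
  obtain ⟨b, hb, hspan, hbli⟩ := exists_linearIndependent (ZMod p) κ₀
  have hbfin : b.Finite := by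
    by_contra hinf
    obtain ⟨t, htb, htc⟩ := (show b.Infinite from hinf).exists_subset_card_eq (d + 1)
    have h0 : LinearIndepOn (ZMod p) id (t : Set κ) :=
      LinearIndepOn.mono (show LinearIndepOn (ZMod p) id b from hbli) htb
    have h1 := hind t (htb.trans hb) h0
    omega
  have hcard : hbfin.toFinset.card ≤ d := by
    refine hind _ ?_ ?_
    · rw [Set.Finite.coe_toFinset]
      exact hb
    · have h0 : LinearIndepOn (ZMod p) id (hbfin.toFinset : Set κ) := by
        rw [Set.Finite.coe_toFinset]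
        exact hbli
      exact h0
  set B : Finset κ := hbfin.toFinset with hB
  have hBb : (B : Set κ) = b := Set.Finite.coe_toFinset _
  have hsub : κ₀ ⊆ Set.range (fun c : B → ZMod p => ∑ i : B, c i • (i : κ)) := by
    intro y hy
    have h1 : y ∈ Submodule.span (ZMod p) (Set.range (fun i : B => (i : κ))) := by
      have h2 : Set.range (fun i : B => (i : κ)) = b := by
        rw [← hBb]
        exact Subtype.range_coe
      rw [h2, hspan]
      exact Submodule.subset_span hy
    obtain ⟨c, hc⟩ := (Submodule.mem_span_range_iff_exists_fun (ZMod p)).1 h1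
    exact ⟨c, hc⟩
  have hrf : (Set.range (fun c : B → ZMod p => ∑ i : B, c i • (i : κ))).Finite := Set.finite_range _
  refine ⟨hrf.subset hsub, ?_⟩
  calc κ₀.ncard ≤ (Set.range (fun c : B → ZMod p => ∑ i : B, c i • (i : κ))).ncard :=
        Set.ncard_le_ncard hsub hrf
    _ ≤ (Set.univ : Set (B → ZMod p)).ncard := by
        rw [← Set.image_univ]
        exact Set.ncard_image_le Set.finite_univ
    _ = p ^ B.card := by
        rw [Set.ncard_univ, Nat.card_eq_fintype_card, Fintype.card_fun, ZMod.card, Fintype.card_coe]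
    _ ≤ p ^ d := Nat.pow_le_pow_right (Fact.out : p.Prime).pos hcard

end Pool.Agent.PU
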